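import Pool.Agent.Helper17K9.ED.Stm

/-! Leaf [BIG] (helper18). -/

set_option autoImplicit false

namespace Pool.Agent.Helper17K9.ED

open Pool.Agent.Q10.E8

/-- **BIG** -/
theorem big : S_DVE → S_MER → S_BIG := by
  intro hDVE hMER
  obtain ⟨c, hc, T, hT⟩ := hMER
  refine ⟨c / 2, by positivity, T + 100, fun t m Y ht hm hY hd => ?_⟩
  have ht0 : (0 : ℝ) < t := by exact_mod_cast (by omega : 0 < t)
  have hsum := hT t (by omega)
  obtain ⟨S, hS⟩ : ∃ S, S = (Finset.Icc 1 (t / 2)).filter (fun l => l.Prime ∧ 2 * t ≤ l ^ 2) :=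
    ⟨_, rfl⟩
  rw [← hS] at hsum
  have hmem : ∀ l ∈ S, 1 ≤ l ∧ l ≤ t / 2 ∧ l.Prime ∧ 2 * t ≤ l ^ 2 := by
    intro l hl
    rw [hS, Finset.mem_filter, Finset.mem_Icc] at hl
    exact ⟨hl.1.1, hl.1.2, hl.2.1, hl.2.2⟩
  have hcard : 0 < Y.card := Finset.card_pos.2 hd.1
  have hcub : Cubature t m Y (fun v => (((fun _ => 1 : (Fin 8 → ℤ) → ℤ) v : ℤ) : ℝ)) := by
    simpa using hd.2
  have hdvd : ∀ l ∈ S, ((l : ℤ) ^ (2 * (t / (2 * l)))) ∣ (Y.card : ℤ) := by
    intro l hl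
    obtain ⟨h1, h2, h3, h4⟩ := hmem l hl
    have h5 : 2 * (t / (2 * l)) * l ≤ t := by
      have := Nat.div_mul_le_self t (2 * l)
      nlinarith
    have hl10 : 14 ≤ l := by
      by_contra hcon
      push Not at hcon
      have : l ^ 2 ≤ 13 ^ 2 := Nat.pow_le_pow_left (by omega) 2
      omega
    have h6 : 4 * (t / (2 * l)) ≤ l := by
      by_contra hcon
      push Not at hcon
      have h7 : l * l < 4 * (t / (2 * l)) * l := Nat.mul_lt_mul_of_pos_right hcon (by omega)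
      nlinarith
    have h7 := hDVE t m Y (fun _ => 1) hcub (fun v hv => (hY v hv).1) l (t / (2 * l)) h3
      (hm l h3 (by omega)) (by omega) (by omega) h5
    simpa using h7
  have hcop : (S : Set ℕ).Pairwise (Function.onFun IsCoprime
      fun l : ℕ => ((l : ℤ) ^ (2 * (t / (2 * l))))) := by
    intro l hl l' hl' hne
    exact IsCoprime.pow (Nat.isCoprime_iff_coprime.2
      ((Nat.coprime_primes (hmem l hl).2.2.1 (hmem l' hl').2.2.1).2 hne))
  have hprod := Finset.prod_dvd_of_coprime hcop hdvd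
  have hle := Int.le_of_dvd (by exact_mod_cast hcard) hprod
  have hleR : ∏ l ∈ S, ((l : ℝ) ^ (2 * (t / (2 * l)))) ≤ (Y.card : ℝ) := by exact_mod_cast hle
  have hl0 : ∀ l ∈ S, (0 : ℝ) < l := fun l hl => by exact_mod_cast (hmem l hl).1
  have hppos : 0 < ∏ l ∈ S, ((l : ℝ) ^ (2 * (t / (2 * l)))) :=
    Finset.prod_pos fun l hl => pow_pos (hl0 l hl) _
  have hlog := Real.log_le_log hppos hleR
  rw [Real.log_prod fun l hl => (pow_pos (hl0 l hl) _).ne'] at hlog
  have hterm : ∀ l ∈ S, (t : ℝ) / 2 * (Real.log l / l) ≤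
      Real.log ((l : ℝ) ^ (2 * (t / (2 * l)))) := by
    intro l hl
    obtain ⟨h1, h2, h3, h4⟩ := hmem l hl
    have hlp := hl0 l hl
    have hlog0 : 0 ≤ Real.log l := Real.log_nonneg (by exact_mod_cast h1)
    rw [Real.log_pow]
    have h5 : 1 ≤ t / (2 * l) := (Nat.one_le_div_iff (by omega)).2 (by omega)
    have h6 : t ≤ 4 * l * (t / (2 * l)) := by
      have h7 := Nat.lt_div_mul_add (a := t) (by omega : 0 < 2 * l)
      nlinarith
    have h7 : (t : ℝ) ≤ 4 * l * ((t / (2 * l) : ℕ) : ℝ) := by exact_mod_cast h6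
    have h8 : (t : ℝ) / (2 * l) ≤ ((2 * (t / (2 * l)) : ℕ) : ℝ) := by
      rw [div_le_iff₀ (by positivity)]
      push_cast
      linarith
    calc (t : ℝ) / 2 * (Real.log l / l) = t / (2 * l) * Real.log l := by field_simp
      _ ≤ _ := mul_le_mul_of_nonneg_right h8 hlog0
  have h9 := (Finset.sum_le_sum hterm).trans hlog
  rw [← Finset.mul_sum] at h9
  have h10 := mul_le_mul_of_nonneg_left hsum (by positivity : (0 : ℝ) ≤ t / 2)
  have hY0 : (0 : ℝ) < Y.card := by exact_mod_cast hcard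
  rw [Real.rpow_def_of_pos ht0, ← Real.le_log_iff_exp_le hY0]
  linarith

end Pool.Agent.Helper17K9.ED
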