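import Pool.Agent.Helper17K9.ED.Stm

/-!
# CNT: the number of points of a shell
-/

set_option autoImplicit false

namespace Pool.Agent.Helper17K9.ED

open Pool.Agent.Q10.E8

theorem cnt : S_CNT := by
  intro m Y hm hY
  set s := Nat.sqrt (8 * m) with hs
  have hs1 : 1 ≤ s := by
    rw [hs, Nat.le_sqrt]; omega
  have hs2 : s ^ 2 ≤ 8 * m := Nat.sqrt_le' _
  have hsub : Y ⊆ Fintype.piFinset (fun _ : Fin 8 => Finset.Icc (-(s : ℤ)) s) := by
    intro v hv
    rw [Fintype.mem_piFinset]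
    intro i
    rw [Finset.mem_Icc]
    have h1 := (hY v hv).2
    have h2 : v i ^ 2 ≤ 8 * (m : ℤ) := by
      rw [← h1]
      exact Finset.single_le_sum (f := fun i => v i ^ 2) (fun j _ => sq_nonneg (v j))
        (Finset.mem_univ i)
    have h3 : (v i).natAbs ≤ s := by
      rw [hs, Nat.le_sqrt']
      zify
      rw [sq_abs]
      exact h2
    omega
  have hcard := Finset.card_le_card hsub
  rw [Fintype.card_piFinset] at hcard
  simp only [Int.card_Icc, Finset.prod_const, Finset.card_univ, Fintype.card_fin] at hcard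
  have h4 : ((s : ℤ) + 1 - -(s : ℤ)).toNat = 2 * s + 1 := by omega
  rw [h4] at hcard
  calc Y.card ≤ (2 * s + 1) ^ 8 := hcard
    _ ≤ (3 * s) ^ 8 := Nat.pow_le_pow_left (by omega) 8
    _ = 3 ^ 8 * (s ^ 2) ^ 4 := by ring
    _ ≤ 3 ^ 8 * (8 * m) ^ 4 := Nat.mul_le_mul_left _ (Nat.pow_le_pow_left hs2 4)
    _ = 3 ^ 8 * 8 ^ 4 * m ^ 4 := by ring

end Pool.Agent.Helper17K9.ED
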