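import Pool.Agent.Helper17K9.ED.Stm

set_option autoImplicit false

namespace Pool.Agent.Helper17K9.ED

open Pool.Agent.Q10.E8

namespace DvL

theorem fin {l : ℕ} (hl : l.Prime) {n : ℕ} {W A : ℤ} (h : (l : ℤ) ^ n ∣ W * A)
    (hA : ((A : ℤ) : ZMod l) ≠ 0) : (l : ℤ) ^ n ∣ W := by
  have hp : Prime (l : ℤ) := Nat.prime_iff_prime_int.mp hl
  have hnd : ¬ (l : ℤ) ∣ A := fun h' => hA ((ZMod.intCast_zmod_eq_zero_iff_dvd A l).mpr h')
  have hc : IsCoprime ((l : ℤ) ^ n) A := IsCoprime.pow_left ((Prime.coprime_iff_not_dvd hp).mpr hnd)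
  exact hc.dvd_of_dvd_mul_right h

theorem fermat {l : ℕ} (hl : l.Prime) (j : ℤ) : (l : ℤ) ∣ j ^ l - j := by
  have := Fact.mk hl
  rw [← ZMod.intCast_zmod_eq_zero_iff_dvd]
  push_cast
  rw [ZMod.pow_card, sub_self]

theorem half {l : ℕ} (hl : l.Prime) (h5 : 5 < l) : 2 * ((l - 1) / 2) = l - 1 := by
  rcases hl.eq_two_or_odd with h | h <;> omega

theorem exp_even {l : ℕ} (hl : l.Prime) (h5 : 5 < l) (p : ℕ) (j : ℤ) :
    (j ^ l - j) ^ (2 * p) = ∑ i ∈ Finset.range (2 * p + 1), ((Nat.choose (2 * p) i : ℤ) * (-1) ^ i)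
      * j ^ (2 * (p + i * ((l - 1) / 2))) := by
  rw [sub_pow]
  refine Finset.sum_congr rfl fun i hi => ?_
  rw [Finset.mem_range] at hi
  have e1 : 2 * (p + i * ((l - 1) / 2)) = l * i + (2 * p - i) := by
    have h1 := half hl h5
    have h2 : 2 * (p + i * ((l - 1) / 2)) = 2 * p + i * (2 * ((l - 1) / 2)) := by ring
    rw [h2, h1]
    obtain ⟨k, rfl⟩ : ∃ k, l = k + 1 := ⟨l - 1, by omega⟩
    simp only [Nat.add_sub_cancel]
    have h3 : (k + 1) * i = i * k + i := by ring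
    rw [h3]
    omega
  rw [e1, pow_add j, ← pow_mul j l i, pow_add (-1 : ℤ) i (2 * p), pow_mul (-1 : ℤ) 2 p]
  simp
  ring

theorem exp_odd {l : ℕ} (hl : l.Prime) (h5 : 5 < l) (p : ℕ) (hp : 1 ≤ p) (j : ℤ) :
    (j ^ l - j) ^ (2 * p - 1) * j = -∑ i ∈ Finset.range (2 * p),
      ((Nat.choose (2 * p - 1) i : ℤ) * (-1) ^ i) * j ^ (2 * (p + i * ((l - 1) / 2))) := by
  obtain ⟨q, rfl⟩ : ∃ q, p = q + 1 := ⟨p - 1, by omega⟩
  have e0 : 2 * (q + 1) - 1 = 2 * q + 1 := by omega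
  have e00 : 2 * (q + 1) = 2 * q + 1 + 1 := by ring
  rw [e0, sub_pow, Finset.sum_mul, e00, ← Finset.sum_neg_distrib]
  refine Finset.sum_congr rfl fun i hi => ?_
  rw [Finset.mem_range] at hi
  have e1 : 2 * (q + 1 + i * ((l - 1) / 2)) = l * i + ((2 * q + 1 - i) + 1) := by
    have h1 := half hl h5
    have h2 : 2 * (q + 1 + i * ((l - 1) / 2)) = 2 * q + 2 + i * (2 * ((l - 1) / 2)) := by ring
    rw [h2, h1]
    obtain ⟨k, rfl⟩ : ∃ k, l = k + 1 := ⟨l - 1, by omega⟩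
    simp only [Nat.add_sub_cancel]
    have h3 : (k + 1) * i = i * k + i := by ring
    rw [h3]
    omega
  rw [e1, pow_add j, ← pow_mul, pow_succ j, show i + (2 * q + 1) = (i + 1) + 2 * q by ring,
    pow_add (-1 : ℤ) (i + 1) (2 * q), pow_mul (-1 : ℤ) 2 q, pow_succ (-1 : ℤ) i]
  simp
  ring

theorem comb {t m : ℕ} {Y : Finset (Fin 8 → ℤ)} {w : (Fin 8 → ℤ) → ℤ} (hM : S_MOM)
    (h : Cubature t m Y (fun v => (w v : ℝ))) (hY : ∀ v ∈ Y, IsE8 v)
    {r : Fin 8 → ℤ} (hr : IsE8 r) (hs : ∑ i, r i ^ 2 = 8 * ((1 : ℕ) : ℤ))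
    (n : ℕ) (c : ℕ → ℤ) (κ : ℕ → ℕ) (hκ : ∀ i ∈ Finset.range n, 2 * κ i ≤ t) :
    10 * ∑ v ∈ Y, w v * ∑ i ∈ Finset.range n, c i * (pr v r) ^ (2 * κ i)
      = (∑ v ∈ Y, w v) * ∑ i ∈ Finset.range n, c i * (sc (κ i) * (m : ℤ) ^ (κ i)) := by
  have h1 : ∑ v ∈ Y, w v * ∑ i ∈ Finset.range n, c i * (pr v r) ^ (2 * κ i)
      = ∑ i ∈ Finset.range n, c i * ∑ v ∈ Y, w v * (pr v r) ^ (2 * κ i) := by
    simp only [Finset.mul_sum]
    rw [Finset.sum_comm]
    refine Finset.sum_congr rfl fun i _ => Finset.sum_congr rfl fun v _ => ?_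
    ring
  rw [h1, Finset.mul_sum, Finset.mul_sum]
  refine Finset.sum_congr rfl fun i hi => ?_
  have h2 := hM t m Y w h hY r hr 1 hs (κ i) (hκ i hi)
  have h3 : (m : ℤ) * ((1 : ℕ) : ℤ) = m := by simp
  rw [h3] at h2
  linear_combination c i * h2

end DvL

open DvL in
theorem dve (hM : S_MOM) (hE : S_EXE) : S_DVE := by
  intro t m Y w h hY l p hl hlm hp h5 ht
  obtain ⟨r, hr, hs⟩ := exists_vec 1
  have hc := comb hM h hY hr hs (2 * p + 1) (fun i => (Nat.choose (2 * p) i : ℤ) * (-1) ^ i)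
    (fun i => p + i * ((l - 1) / 2)) (by
      intro i hi
      rw [Finset.mem_range] at hi
      have h1 := half hl h5
      have h2 : 2 * (p + i * ((l - 1) / 2)) = 2 * p + i * (2 * ((l - 1) / 2)) := by ring
      show 2 * (p + i * ((l - 1) / 2)) ≤ t
      rw [h2, h1]
      have h3 : i * (l - 1) ≤ 2 * p * (l - 1) := Nat.mul_le_mul_right _ (by omega)
      have h4 : 2 * p * l = 2 * p * (l - 1) + 2 * p := by
        obtain ⟨k, rfl⟩ : ∃ k, l = k + 1 := ⟨l - 1, by omega⟩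
        simp only [Nat.add_sub_cancel]
        ring
      omega)
  refine fin hl (A := ∑ i ∈ Finset.range (2 * p + 1), ((Nat.choose (2 * p) i : ℤ) * (-1) ^ i)
    * (sc (p + i * ((l - 1) / 2)) * (m : ℤ) ^ (p + i * ((l - 1) / 2)))) ?_ ?_
  · rw [← hc]
    refine Dvd.dvd.mul_left ?_ _
    refine Finset.dvd_sum fun v _ => Dvd.dvd.mul_left ?_ _
    rw [← exp_even hl h5]
    exact pow_dvd_pow_of_dvd (fermat hl _) _
  · have := hE l p hl hp h5 (m : ZMod l) (by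
      intro h0
      exact hlm ((ZMod.natCast_eq_zero_iff m l).mp h0))
    push_cast
    exact this

open DvL in
theorem dvo (hM : S_MOM) (hE : S_EXO) : S_DVO := by
  intro t m Y w h hY l p hl hlm hp1 hp ht
  have h5 : 5 < l := by omega
  obtain ⟨r, hr, hs⟩ := exists_vec 1
  have hc := comb hM h hY hr hs (2 * p) (fun i => (Nat.choose (2 * p - 1) i : ℤ) * (-1) ^ i)
    (fun i => p + i * ((l - 1) / 2)) (by
      intro i hi
      rw [Finset.mem_range] at hi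
      have h1 := half hl h5
      have h2 : 2 * (p + i * ((l - 1) / 2)) = 2 * p + i * (2 * ((l - 1) / 2)) := by ring
      show 2 * (p + i * ((l - 1) / 2)) ≤ t
      rw [h2, h1]
      have h3 : i * (l - 1) ≤ (2 * p - 1) * (l - 1) := Nat.mul_le_mul_right _ (by omega)
      have h4 : (2 * p - 1) * l = (2 * p - 1) * (l - 1) + (2 * p - 1) := by
        obtain ⟨k, rfl⟩ : ∃ k, l = k + 1 := ⟨l - 1, by omega⟩
        simp only [Nat.add_sub_cancel]
        ring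
      omega)
  refine fin hl (A := ∑ i ∈ Finset.range (2 * p), ((Nat.choose (2 * p - 1) i : ℤ) * (-1) ^ i)
    * (sc (p + i * ((l - 1) / 2)) * (m : ℤ) ^ (p + i * ((l - 1) / 2)))) ?_ ?_
  · rw [← hc]
    refine Dvd.dvd.mul_left ?_ _
    refine Finset.dvd_sum fun v _ => Dvd.dvd.mul_left ?_ _
    have h1 := exp_odd hl h5 p hp1 (pr v r)
    have h2 : (l : ℤ) ^ (2 * p - 1) ∣ (pr v r ^ l - pr v r) ^ (2 * p - 1) * pr v r :=
      Dvd.dvd.mul_right (pow_dvd_pow_of_dvd (fermat hl _) _) _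
    rw [h1] at h2
    exact (dvd_neg.mp h2)
  · have := hE l p hl hp1 hp (m : ZMod l) (by
      intro h0
      exact hlm ((ZMod.natCast_eq_zero_iff m l).mp h0))
    push_cast
    exact this

end Pool.Agent.Helper17K9.ED
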