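import Pool.Agent.Helper17K9.ED.Luc

set_option autoImplicit false

/-!
# Relay ED: the leaves EXE and EXO
-/

namespace Pool.Agent.Helper17K9.ED

namespace ExL

open Finset

theorem split {R : Type*} [AddCommMonoid R] (f : ℕ → R) (p : ℕ) :
    ∑ i ∈ range (2 * p), f i = ∑ a ∈ range p, f (2 * a) + ∑ a ∈ range p, f (2 * a + 1) := by
  induction p with
  | zero => simp
  | succ p ih =>
    rw [show 2 * (p + 1) = 2 * p + 1 + 1 by ring, sum_range_succ, sum_range_succ, ih,
      sum_range_succ (fun a => f (2 * a)), sum_range_succ (fun a => f (2 * a + 1))]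
    abel

theorem split' {R : Type*} [AddCommMonoid R] (f : ℕ → R) (p : ℕ) :
    ∑ i ∈ range (2 * p + 1), f i =
      ∑ a ∈ range (p + 1), f (2 * a) + ∑ a ∈ range p, f (2 * a + 1) := by
  rw [sum_range_succ, split, sum_range_succ (fun a => f (2 * a))]
  abel

theorem choose_ne {l n k : ℕ} (hl : l.Prime) (hk : k ≤ n) (hn : n < l) :
    ((Nat.choose n k : ℕ) : ZMod l) ≠ 0 := by
  rw [Ne, ZMod.natCast_eq_zero_iff]
  intro h
  have h1 : l ∣ n.factorial := by
    rw [← Nat.choose_mul_factorial_mul_factorial hk]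
    exact Dvd.dvd.mul_right (Dvd.dvd.mul_right h _) _
  exact absurd ((hl.dvd_factorial).1 h1) (not_le.2 hn)

theorem sixty_ne {l : ℕ} (hl : l.Prime) (h5 : 5 < l) : (60 : ZMod l) ≠ 0 := by
  have h : ((60 : ℕ) : ZMod l) ≠ 0 := by
    rw [Ne, ZMod.natCast_eq_zero_iff]
    intro h
    have h1 : l ∣ 2 ^ 2 * 3 * 5 := by norm_num; exact h
    rcases (hl.dvd_mul).1 h1 with h2 | h2
    · rcases (hl.dvd_mul).1 h2 with h3 | h3
      · exact absurd (Nat.le_of_dvd two_pos (hl.dvd_of_dvd_pow h3)) (by omega)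
      · exact absurd (Nat.le_of_dvd (by norm_num) h3) (by omega)
    · exact absurd (Nat.le_of_dvd (by norm_num) h2) (by omega)
  exact_mod_cast h

/-- the sum after removing the odd terms -/
theorem reduce (hE : S_LUE) (hO : S_LUO) {l p n N : ℕ} (hl : l.Prime) (hpl : 2 * p + 5 < l)
    (h5 : 5 < l) (hn : ∀ a, a < n → a < p) (hN : ∀ a, a < N → a ≤ p) (c : ℕ → ZMod l) {M : ZMod l}
    (hM : M ≠ 0) :
    ∑ a ∈ range N, c (2 * a) * (-1) ^ (2 * a) *
        (((sc (p + 2 * a * ((l - 1) / 2)) : ℤ) : ZMod l) * M ^ (p + 2 * a * ((l - 1) / 2))) +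
      ∑ a ∈ range n, c (2 * a + 1) * (-1) ^ (2 * a + 1) *
        (((sc (p + (2 * a + 1) * ((l - 1) / 2)) : ℤ) : ZMod l) *
          M ^ (p + (2 * a + 1) * ((l - 1) / 2))) =
      M ^ p * ∑ a ∈ range N, c (2 * a) * (Nat.choose (2 * a) a : ZMod l) *
        ((sc (p - a) : ℤ) : ZMod l) := by
  haveI : Fact l.Prime := ⟨hl⟩
  have hodd : l % 2 = 1 := by
    rcases hl.eq_two_or_odd with h | h
    · omega
    · exact h
  have h2 : 2 * ((l - 1) / 2) = l - 1 := by omega
  have e1 : ∀ a, p + 2 * a * ((l - 1) / 2) = p + a * (l - 1) := by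
    intro a
    have h4 : 2 * a * ((l - 1) / 2) = a * (2 * ((l - 1) / 2)) := by ring
    rw [h4, h2]
  have e2 : ∀ a, p + (2 * a + 1) * ((l - 1) / 2) = p + a * (l - 1) + (l - 1) / 2 := by
    intro a
    rw [add_mul, one_mul, ← add_assoc, e1]
  have h3 : ∑ a ∈ range n, c (2 * a + 1) * (-1) ^ (2 * a + 1) *
        (((sc (p + (2 * a + 1) * ((l - 1) / 2)) : ℤ) : ZMod l) *
          M ^ (p + (2 * a + 1) * ((l - 1) / 2))) = 0 := by
    apply sum_eq_zero
    intro a ha
    rw [e2, hO l p a hl (hn a (mem_range.1 ha)) hpl, zero_mul, mul_zero]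
  rw [h3, add_zero, mul_sum]
  apply sum_congr rfl
  intro a ha
  have h6 : M ^ (p + a * (l - 1)) = M ^ p := by
    rw [pow_add, mul_comm a (l - 1), pow_mul, ZMod.pow_card_sub_one_eq_one hM, one_pow, mul_one]
  have h7 : (-1 : ZMod l) ^ (2 * a) = 1 := by rw [pow_mul, neg_one_sq, one_pow]
  rw [e1, hE l p a hl (hN a (mem_range.1 ha)) hpl, h6, h7]
  ring

end ExL

open Finset

theorem exe : S_LUE → S_LUO → S_VDE → S_EXE := by
  intro hE hO hV l p hl hpl h5 M hM hcon
  haveI : Fact l.Prime := ⟨hl⟩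
  rw [ExL.split', ExL.reduce hE hO hl hpl h5 (fun a h => h) (fun a h => Nat.lt_succ_iff.1 h)
    (fun i => (Nat.choose (2 * p) i : ZMod l)) hM] at hcon
  have h1 := (mul_eq_zero.1 hcon).resolve_left (pow_ne_zero _ hM)
  have h2 := congrArg (fun z : ℤ => (z : ZMod l)) (hV p)
  simp only [Int.cast_mul, Int.cast_add, Int.cast_natCast, Int.cast_one, Int.cast_ofNat,
    Int.cast_sum] at h2
  rw [h1, zero_mul, Nat.centralBinom] at h2
  exact mul_ne_zero (mul_ne_zero (ExL.sixty_ne hl h5) (ExL.choose_ne hl (by omega) (by omega)))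
    (ExL.choose_ne hl (by omega) (by omega)) h2.symm

theorem exo : S_LUE → S_LUO → S_VDO → S_EXO := by
  intro hE hO hV l p hl hp hpl M hM hcon
  haveI : Fact l.Prime := ⟨hl⟩
  rw [ExL.split, ExL.reduce hE hO hl hpl (by omega) (fun a h => h) (fun a h => le_of_lt h)
    (fun i => (Nat.choose (2 * p - 1) i : ZMod l)) hM] at hcon
  have h1 := (mul_eq_zero.1 hcon).resolve_left (pow_ne_zero _ hM)
  have h2 := congrArg (fun z : ℤ => (z : ZMod l)) (hV p hp)
  simp only [Int.cast_mul, Int.cast_add, Int.cast_natCast, Int.cast_one, Int.cast_ofNat,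
    Int.cast_sum] at h2
  rw [h1, zero_mul, Nat.centralBinom] at h2
  exact mul_ne_zero (mul_ne_zero (ExL.sixty_ne hl (by omega))
    (ExL.choose_ne hl (by omega) (by omega))) (ExL.choose_ne hl (by omega) (by omega)) h2.symm

end Pool.Agent.Helper17K9.ED
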