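import Pool.Agent.Helper17K9.ED.Stm

set_option autoImplicit false

/-! # Relay ED, leaf [LOG] (helper80) -/

namespace Pool.Agent.Helper17K9.ED

open Pool.Agent.Q10.E8

theorem LogL.theta_lin (n : ℕ) : (n : ℝ) / 4 ≤ Chebyshev.theta n + 300000 := by
  have h := Chebyshev.theta_ge n
  have hn0 : (0 : ℝ) ≤ n := Nat.cast_nonneg n
  set y : ℝ := (n : ℝ) ^ (1 / 4 : ℝ) with hy
  have hy0 : 0 ≤ y := Real.rpow_nonneg hn0 _
  have hy4 : y ^ 4 = n := by
    rw [hy, ← Real.rpow_natCast, ← Real.rpow_mul hn0]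
    norm_num
  have hsq : √(n : ℝ) = y ^ 2 := by
    rw [← hy4, show y ^ 4 = (y ^ 2) ^ 2 by ring]
    exact Real.sqrt_sq (by positivity)
  have hlog : Real.log n ≤ 4 * y := by
    have := Real.log_le_rpow_div hn0 (show (0 : ℝ) < 1 / 4 by norm_num)
    rw [← hy] at this
    linarith
  have hlog1 : Real.log (n + 1) ≤ 1 + 4 * y := by
    rcases Nat.eq_zero_or_pos n with h0 | h0
    · subst h0
      simp
      positivity
    · have h1 : (1 : ℝ) ≤ n := by exact_mod_cast h0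
      have h2 : Real.log (n + 1) ≤ Real.log (2 * n) := Real.log_le_log (by positivity) (by linarith)
      rw [Real.log_mul (by norm_num) (by positivity)] at h2
      have := Real.log_two_lt_d9
      linarith
  have hl2 := Real.log_two_gt_d9
  rw [hsq] at h
  have h3 : 2 * y ^ 2 * Real.log n ≤ 2 * y ^ 2 * (4 * y) := mul_le_mul_of_nonneg_left hlog (by positivity)
  have h4 : (n : ℝ) * 0.69 ≤ n * Real.log 2 := mul_le_mul_of_nonneg_left (by linarith) hn0
  have h5 : y ^ 4 / 4 ≤ 0.69 * y ^ 4 - (1 + 4 * y) - 8 * y ^ 3 + 300000 := by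
    rcases le_total y 30 with h6 | h6
    · have h7 : y ^ 3 ≤ 30 ^ 3 := pow_le_pow_left₀ hy0 h6 3
      have h8 : 0 ≤ y ^ 4 := by positivity
      nlinarith
    · have h7 : 0 ≤ y ^ 3 := by positivity
      have h8 : y ^ 3 * 30 ≤ y ^ 3 * y := mul_le_mul_of_nonneg_left h6 h7
      have h9 : (30 : ℝ) ^ 2 * y ≤ y ^ 2 * y :=
        mul_le_mul_of_nonneg_right (pow_le_pow_left₀ (by norm_num) h6 2) hy0
      nlinarith
  rw [hy4] at h5
  have h6 : 2 * y ^ 2 * (4 * y) = 8 * y ^ 3 := by ring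
  linarith

theorem log : S_PRD → S_CNT → S_LOG := by
  intro hP hN
  set A : ℝ := 210 * (3 ^ 8 * 8 ^ 4) with hA
  have hA1 : (1 : ℝ) ≤ A := by norm_num [hA]
  have hlA : 0 ≤ Real.log A := Real.log_nonneg hA1
  refine ⟨2 * (1 + 4 * Real.log A + 4 * 300000) + 20, by positivity, ?_⟩
  intro t m Y hm hY hd
  have hm1 : (1 : ℝ) ≤ m := by exact_mod_cast hm
  have hl2 := Real.log_two_gt_d9
  have hL : Real.log 2 ≤ Real.log (2 * m) := Real.log_le_log (by norm_num) (by linarith)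
  have hlm : Real.log m ≤ Real.log (2 * m) := Real.log_le_log (by linarith) (by linarith)
  obtain ⟨hne, hc⟩ := hd
  have h1 := hP t m Y (fun _ => 1) (by simpa using hc) (fun v hv => (hY v hv).1)
  have hcard : 0 < Y.card := Finset.card_pos.mpr hne
  have h2 : primorial (t - 1) ≤ 210 * m * Y.card := by
    apply Nat.le_of_dvd (by positivity)
    have : ((primorial (t - 1) : ℕ) : ℤ) ∣ ((210 * m * Y.card : ℕ) : ℤ) := by
      simpa using h1
    exact_mod_cast this
  have h3 : 210 * m * Y.card ≤ 210 * (3 ^ 8 * 8 ^ 4) * m ^ 5 := by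
    calc 210 * m * Y.card ≤ 210 * m * (3 ^ 8 * 8 ^ 4 * m ^ 4) := Nat.mul_le_mul_left _ (hN m Y hm hY)
      _ = 210 * (3 ^ 8 * 8 ^ 4) * m ^ 5 := by ring
  have h4 : ((primorial (t - 1) : ℕ) : ℝ) ≤ A * (m : ℝ) ^ 5 := by
    have : ((primorial (t - 1) : ℕ) : ℝ) ≤ ((210 * (3 ^ 8 * 8 ^ 4) * m ^ 5 : ℕ) : ℝ) := by
      exact_mod_cast h2.trans h3
    refine this.trans (le_of_eq ?_)
    rw [hA]
    push_cast
    ring
  have h5 : Real.log ((primorial (t - 1) : ℕ) : ℝ) ≤ Real.log A + 5 * Real.log m := by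
    have hp : (0 : ℝ) < ((primorial (t - 1) : ℕ) : ℝ) := by exact_mod_cast primorial_pos _
    refine (Real.log_le_log hp h4).trans (le_of_eq ?_)
    rw [Real.log_mul (by positivity) (by positivity), Real.log_pow]
    norm_num
  have h6 := LogL.theta_lin (t - 1)
  rw [Chebyshev.theta_eq_log_primorial, Nat.floor_natCast] at h6
  have h7 : (t : ℝ) ≤ ((t - 1 : ℕ) : ℝ) + 1 := by
    have : t ≤ (t - 1) + 1 := by omega
    exact_mod_cast this
  have h8 : (1 + 4 * Real.log A + 4 * 300000) * 1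
      ≤ (1 + 4 * Real.log A + 4 * 300000) * (2 * Real.log (2 * m)) :=
    mul_le_mul_of_nonneg_left (by linarith) (by positivity)
  nlinarith

end Pool.Agent.Helper17K9.ED
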