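import Pool.Agent.Helper17K9.ED.Stm

set_option autoImplicit false

/-!
# Relay ED: the leaves LUE and LUO
-/

namespace Pool.Agent.Helper17K9.ED

namespace LucL

theorem cast_ne {l n : ℕ} (hn : 0 < n) (hl : n < l) : (n : ZMod l) ≠ 0 := by
  rw [Ne, ZMod.natCast_eq_zero_iff]
  exact fun h => absurd (Nat.le_of_dvd hn h) (not_le.2 hl)

/-- the closed form modulo `l` -/
theorem sup_mod (h : S_SUP) (l k : ℕ) : ((sc k : ℤ) : ZMod l) *
    (((k + 1 : ℕ) : ZMod l) * ((k + 2 : ℕ) : ZMod l) * ((k + 3 : ℕ) : ZMod l)) =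
      60 * ((Nat.choose (2 * k) k : ℕ) : ZMod l) := by
  have h1 := congrArg (fun z : ℤ => (z : ZMod l)) (h k)
  simp only [Int.cast_mul, Int.cast_add, Int.cast_natCast, Int.cast_one, Int.cast_ofNat] at h1
  rw [Nat.centralBinom] at h1
  push_cast
  exact h1

theorem lucas {l : ℕ} (hl : l.Prime) {r s u v : ℕ} (hr : r < l) (hs : s < l) :
    ((Nat.choose (l * u + r) (l * v + s) : ℕ) : ZMod l) =
      ((Nat.choose r s : ℕ) : ZMod l) * ((Nat.choose u v : ℕ) : ZMod l) := by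
  haveI : Fact l.Prime := ⟨hl⟩
  have h := Choose.choose_modEq_choose_mod_mul_choose_div_nat (n := l * u + r) (k := l * v + s)
    (p := l)
  rw [Nat.mul_add_mod, Nat.mul_add_mod, Nat.mod_eq_of_lt hr, Nat.mod_eq_of_lt hs,
    Nat.mul_add_div hl.pos, Nat.mul_add_div hl.pos, Nat.div_eq_of_lt hr, Nat.div_eq_of_lt hs,
    add_zero, add_zero] at h
  have h2 := (ZMod.natCast_eq_natCast_iff _ _ l).2 h
  rw [h2]
  push_cast
  ring

end LucL

theorem lue : S_SUP → S_LUE := by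
  intro hS l p a hl hap hpl
  haveI : Fact l.Prime := ⟨hl⟩
  obtain ⟨b, rfl⟩ : ∃ b, p = a + b := ⟨p - a, by omega⟩
  have hk : a + b + a * (l - 1) = l * a + b := by
    obtain ⟨m, rfl⟩ : ∃ m, l = m + 1 := ⟨l - 1, by have := hl.pos; omega⟩
    simp only [Nat.add_sub_cancel]
    ring
  rw [hk, show a + b - a = b by omega]
  have h1 := LucL.sup_mod hS l (l * a + b)
  have h2 := LucL.sup_mod hS l b
  have e : ∀ j : ℕ, ((l * a + b + j : ℕ) : ZMod l) = ((b + j : ℕ) : ZMod l) := by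
    intro j
    push_cast
    rw [CharP.cast_eq_zero]
    ring
  rw [e 1, e 2, e 3] at h1
  have h3 : 2 * (l * a + b) = l * (2 * a) + 2 * b := by ring
  rw [h3, LucL.lucas hl (by omega) (by omega)] at h1
  have hu : ((b + 1 : ℕ) : ZMod l) * ((b + 2 : ℕ) : ZMod l) * ((b + 3 : ℕ) : ZMod l) ≠ 0 :=
    mul_ne_zero (mul_ne_zero (LucL.cast_ne (by omega) (by omega))
      (LucL.cast_ne (by omega) (by omega))) (LucL.cast_ne (by omega) (by omega))
  apply mul_right_cancel₀ hu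
  rw [h1]
  linear_combination (-(Nat.choose (2 * a) a : ZMod l)) * h2

theorem luo : S_SUP → S_LUO := by
  intro hS l p a hl hap hpl
  haveI : Fact l.Prime := ⟨hl⟩
  obtain ⟨b, rfl⟩ : ∃ b, p = a + 1 + b := ⟨p - a - 1, by omega⟩
  have hodd : l % 2 = 1 := by
    rcases hl.eq_two_or_odd with h | h
    · omega
    · exact h
  obtain ⟨m, rfl⟩ : ∃ m, l = 2 * m + 1 := ⟨l / 2, by omega⟩
  have hm : (2 * m + 1 - 1) / 2 = m := by omega
  have hm2 : 2 * m + 1 - 1 = 2 * m := by omega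
  rw [hm, hm2]
  have hk : a + 1 + b + a * (2 * m) + m = (2 * m + 1) * a + (b + 1 + m) := by ring
  rw [hk]
  have h1 := LucL.sup_mod hS (2 * m + 1) ((2 * m + 1) * a + (b + 1 + m))
  have e : ∀ j : ℕ, (((2 * m + 1) * a + (b + 1 + m) + j : ℕ) : ZMod (2 * m + 1)) =
      ((b + 1 + m + j : ℕ) : ZMod (2 * m + 1)) := by
    intro j
    have h5 : (((2 * m + 1 : ℕ) : ℕ) : ZMod (2 * m + 1)) = 0 := CharP.cast_eq_zero _ _
    rw [add_assoc, Nat.cast_add, Nat.cast_mul, h5, zero_mul, zero_add]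
  rw [e 1, e 2, e 3] at h1
  have h3 : 2 * ((2 * m + 1) * a + (b + 1 + m)) = (2 * m + 1) * (2 * a + 1) + (2 * b + 1) := by
    ring
  rw [h3, LucL.lucas hl (by omega) (by omega),
    Nat.choose_eq_zero_of_lt (show 2 * b + 1 < b + 1 + m by omega), Nat.cast_zero, zero_mul,
    mul_zero] at h1
  have hu : ((b + 1 + m + 1 : ℕ) : ZMod (2 * m + 1)) * ((b + 1 + m + 2 : ℕ) : ZMod (2 * m + 1)) *
      ((b + 1 + m + 3 : ℕ) : ZMod (2 * m + 1)) ≠ 0 :=
    mul_ne_zero (mul_ne_zero (LucL.cast_ne (by omega) (by omega))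
      (LucL.cast_ne (by omega) (by omega))) (LucL.cast_ne (by omega) (by omega))
  exact (mul_eq_zero.1 h1).resolve_right hu

end Pool.Agent.Helper17K9.ED
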