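import Pool.Agent.Helper17K9.ED.Stm
import Pool.Agent.Erdos456.Mertens

/-!
# MER: the sum of `log l / l` over the primes between `√(2t)` and `t/2`
-/

set_option autoImplicit false

namespace Pool.Agent.Helper17K9.ED

theorem mer : S_MER := by
  obtain ⟨C, hC⟩ := Pool.Agent.Erdos456.Mert.mertens_log
  -- the constant
  set A : ℝ := 2 * C + Real.log 3 + Real.log 2 with hA
  obtain ⟨T, hT⟩ := exists_nat_ge (Real.exp (4 * A))
  refine ⟨1 / 4, by norm_num, max T 8, fun t ht => ?_⟩
  have ht8 : 8 ≤ t := le_trans (le_max_right _ _) ht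
  have htT : T ≤ t := le_trans (le_max_left _ _) ht
  have ht0 : (0 : ℝ) < t := by positivity
  have hlogt : 4 * A ≤ Real.log t := by
    rw [Real.le_log_iff_exp_le ht0]
    exact hT.trans (by exact_mod_cast htT)
  set N := t / 2 with hN
  set M := Nat.sqrt (2 * t) with hM
  have hN1 : 1 ≤ N := by omega
  have hM1 : 1 ≤ M := by
    rw [hM, Nat.le_sqrt]; omega
  have h1 := hC N hN1
  have h2 := hC M hM1
  rw [abs_le] at h1 h2
  have hN3 : (t : ℝ) / 3 ≤ N := by
    have : t ≤ 3 * N := by omega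
    have h : (t : ℝ) ≤ 3 * N := by exact_mod_cast this
    linarith
  have hlogN : Real.log t - Real.log 3 ≤ Real.log N := by
    rw [← Real.log_div ht0.ne' (by norm_num)]
    exact Real.log_le_log (by positivity) hN3
  have hM0 : (0 : ℝ) < M := by exact_mod_cast hM1
  have hlogM : 2 * Real.log M ≤ Real.log 2 + Real.log t := by
    rw [← Real.log_mul (by norm_num) ht0.ne', ← Real.log_rpow hM0]
    apply Real.log_le_log (by positivity)
    have h3 : M ^ 2 ≤ 2 * t := by
      rw [hM]; exact Nat.sqrt_le' _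
    have h4 : ((M ^ 2 : ℕ) : ℝ) ≤ ((2 * t : ℕ) : ℝ) := by exact_mod_cast h3
    push_cast at h4
    rw [show (2 : ℝ) = ((2 : ℕ) : ℝ) by norm_num, Real.rpow_natCast]
    push_cast
    exact h4
  -- the splitting
  have hnn : ∀ l : ℕ, 0 ≤ Real.log l / l := by
    intro l
    rcases Nat.eq_zero_or_pos l with h | h
    · subst h; simp
    · exact div_nonneg (Real.log_nonneg (by exact_mod_cast h)) (by positivity)
  have hsplit : ∑ l ∈ (Finset.Icc 1 N).filter Nat.Prime, Real.log l / l ≤
      ∑ l ∈ (Finset.Icc 1 N).filter (fun l => l.Prime ∧ 2 * t ≤ l ^ 2), Real.log l / l +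
      ∑ l ∈ (Finset.Icc 1 M).filter Nat.Prime, Real.log l / l := by
    have hsub : (Finset.Icc 1 N).filter Nat.Prime ⊆
        (Finset.Icc 1 N).filter (fun l => l.Prime ∧ 2 * t ≤ l ^ 2) ∪
        (Finset.Icc 1 M).filter Nat.Prime := by
      intro l hl
      simp only [Finset.mem_filter, Finset.mem_Icc, Finset.mem_union] at hl ⊢
      by_cases h : 2 * t ≤ l ^ 2
      · exact Or.inl ⟨hl.1, hl.2, h⟩
      · right
        refine ⟨⟨hl.1.1, ?_⟩, hl.2⟩
        rw [hM, Nat.le_sqrt']
        omega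
    calc ∑ l ∈ (Finset.Icc 1 N).filter Nat.Prime, Real.log l / l
        ≤ ∑ l ∈ (Finset.Icc 1 N).filter (fun l => l.Prime ∧ 2 * t ≤ l ^ 2) ∪
          (Finset.Icc 1 M).filter Nat.Prime, Real.log l / l :=
          Finset.sum_le_sum_of_subset_of_nonneg hsub (fun l _ _ => hnn l)
      _ ≤ _ := by
          have h := Finset.sum_union_inter (s₁ := (Finset.Icc 1 N).filter
            (fun l => l.Prime ∧ 2 * t ≤ l ^ 2)) (s₂ := (Finset.Icc 1 M).filter Nat.Prime)
            (f := fun l : ℕ => Real.log l / l)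
          have h0 : 0 ≤ ∑ l ∈ (Finset.Icc 1 N).filter (fun l => l.Prime ∧ 2 * t ≤ l ^ 2) ∩
            (Finset.Icc 1 M).filter Nat.Prime, Real.log l / l := Finset.sum_nonneg (fun l _ => hnn l)
          linarith
  have h20 : 0 ≤ Real.log 2 := Real.log_nonneg (by norm_num)
  linarith [h1.1, h2.2]

end Pool.Agent.Helper17K9.ED
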