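import Pool.Agent.Helper17K9.ED.Stm

set_option autoImplicit false

/-! # Relay ED, leaf [MOM] (helper80) -/

namespace Pool.Agent.Helper17K9.ED

open MeasureTheory Metric Set
open Pool.Agent.Q10.E8

theorem mom : S_SPH → S_MOM := by
  intro hS t m Y w hC hY r hr s hs k hk
  set z : E := (WithLp.toLp 2 fun i => (r i : ℝ) / 2) with hz
  have hzi : ∀ i, z i = (r i : ℝ) / 2 := fun i => rfl
  have hnorm : ‖z‖ ^ 2 = 2 * s := by
    rw [EuclideanSpace.norm_sq_eq]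
    have : ∀ i, ‖z i‖ ^ 2 = (r i : ℝ) ^ 2 / 4 := by
      intro i
      rw [hzi, Real.norm_eq_abs, sq_abs]; ring
    rw [Finset.sum_congr rfl fun i _ => this i, ← Finset.sum_div]
    have h2 : ∑ i, (r i : ℝ) ^ 2 = 8 * s := by exact_mod_cast hs
    rw [h2]; ring
  have hV := vol_pos
  have h1 := moment hC z (2 * k) hk
  have h2 : ∑ v ∈ Y, (w v : ℝ) * (∑ i, z i * ((v i : ℝ) / 2)) ^ (2 * k)
      = ∑ v ∈ Y, (w v : ℝ) * (pr v r : ℝ) ^ (2 * k) := by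
    refine Finset.sum_congr rfl fun v hv => ?_
    rw [aux_z hY r hr v hv]
  rw [h2, F_eq, pow_mul, pow_mul, hnorm, Real.sq_sqrt (by positivity)] at h1
  have h3 := hS k
  have key : (10 : ℝ) * ∑ v ∈ Y, (w v : ℝ) * (pr v r : ℝ) ^ (2 * k)
      = (∑ v ∈ Y, (w v : ℝ)) * ((sc k : ℝ) * ((m : ℝ) * s) ^ k) := by
    apply mul_right_cancel₀ hV.ne'
    have h4 : (2 * (m : ℝ)) ^ k * ((2 * (s : ℝ)) ^ k * F (2 * k) (e 0))
        = ((m : ℝ) * s) ^ k * (4 ^ k * F (2 * k) (e 0)) := by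
      rw [← mul_assoc, ← mul_assoc, ← mul_pow, ← mul_pow]
      congr 2
      ring
    rw [h4] at h1
    calc (10 : ℝ) * (∑ v ∈ Y, (w v : ℝ) * (pr v r : ℝ) ^ (2 * k)) * sg.real Set.univ
        = 10 * ((∑ v ∈ Y, (w v : ℝ) * (pr v r : ℝ) ^ (2 * k)) * sg.real Set.univ) := by ring
      _ = 10 * ((∑ v ∈ Y, (w v : ℝ)) * (((m : ℝ) * s) ^ k * (4 ^ k * F (2 * k) (e 0)))) := by rw [h1]
      _ = (∑ v ∈ Y, (w v : ℝ)) * (((m : ℝ) * s) ^ k * (10 * 4 ^ k * F (2 * k) (e 0))) := by ring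
      _ = (∑ v ∈ Y, (w v : ℝ)) * (((m : ℝ) * s) ^ k * (sc k * sg.real Set.univ)) := by rw [h3]
      _ = _ := by ring
  exact_mod_cast key

end Pool.Agent.Helper17K9.ED
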