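import Pool.Agent.Helper17K9.ED.Stm

set_option autoImplicit false

/-! # Relay ED, leaf [PRD] (helper80) -/

namespace Pool.Agent.Helper17K9.ED

open Pool.Agent.Q10.E8

theorem PrdL.primorial_dvd_int (n : ℕ) (x : ℤ) (h : ∀ l : ℕ, l.Prime → l ≤ n → (l : ℤ) ∣ x) :
    ((primorial n : ℕ) : ℤ) ∣ x := by
  rw [Int.natCast_dvd]
  unfold primorial
  apply Finset.prod_primes_dvd
  · intro l hl
    exact (Finset.mem_filter.mp hl).2.prime
  · intro l hl
    obtain ⟨h1, h2⟩ := Finset.mem_filter.mp hl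
    rw [← Int.natCast_dvd]
    exact h l h2 (Nat.lt_succ_iff.mp (Finset.mem_range.mp h1))

theorem prd : S_DVO → S_PRD := by
  intro hD t m Y w hC hY
  apply PrdL.primorial_dvd_int
  intro l hl hlt
  have h2 := hl.two_le
  by_cases hm : l ∣ m
  · have h1 : (l : ℤ) ∣ (m : ℤ) := by exact_mod_cast hm
    exact Dvd.dvd.mul_right (Dvd.dvd.mul_left h1 _) _
  · by_cases h7 : l ≤ 7
    · have h1 : l ∣ 210 := by
        interval_cases l <;> first | decide | (exfalso; revert hl; decide)
      have h3 : (l : ℤ) ∣ 210 := by exact_mod_cast h1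
      exact Dvd.dvd.mul_right (Dvd.dvd.mul_right h3 _) _
    · have h1 := hD t m Y w hC hY l 1 hl hm le_rfl (by omega) (by omega)
      have h3 : (l : ℤ) ∣ ∑ v ∈ Y, w v := by simpa using h1
      exact Dvd.dvd.mul_left h3 _

end Pool.Agent.Helper17K9.ED
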