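import Pool.Agent.Helper17K9.ED.Upg
import Pool.Agent.Helper17K9.ED.Cnt
import Pool.Agent.Helper17K9.ED.Mer

set_option autoImplicit false

namespace Pool.Agent.Helper17K9.ED

open Pool.Agent.Q10.E8

theorem size : ∃ c : ℝ, 0 < c ∧ ∃ T : ℕ, ∀ (t m : ℕ) (Y : Finset (Fin 8 → ℤ)), T ≤ t →
    (∀ l : ℕ, l.Prime → l ≤ t → ¬ l ^ 2 ∣ m) → (∀ v ∈ Y, InShell m v) → IsDesign t m Y →
      (t : ℝ) ^ (c * t) ≤ (Y.card : ℝ) := big2 mer

theorem size_log : ∃ C : ℝ, 0 < C ∧ ∀ (t m : ℕ) (Y : Finset (Fin 8 → ℤ)), 1 ≤ m →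
    (∀ l : ℕ, l.Prime → l ≤ t → ¬ l ^ 2 ∣ m) → (∀ v ∈ Y, InShell m v) → IsDesign t m Y →
      (t : ℝ) * Real.log t ≤ C * Real.log (2 * m) := by
  obtain ⟨c, hc, T, h⟩ := size
  have h2 : 0 < Real.log 2 := Real.log_pos (by norm_num)
  set K : ℝ := ((3 ^ 8 * 8 ^ 4 : ℕ) : ℝ) with hK
  have hK1 : (1 : ℝ) ≤ K := by rw [hK]; norm_num
  have hlK : 0 ≤ Real.log K := Real.log_nonneg hK1
  set A : ℝ := (Real.log K / Real.log 2 + 4) / c with hA
  set B : ℝ := ((T : ℝ) * Real.log T) / Real.log 2 with hB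
  have hA0 : 0 < A := by positivity
  have hB0 : 0 ≤ B := by
    rw [hB]
    have : 0 ≤ Real.log (T : ℝ) := Real.log_natCast_nonneg T
    positivity
  refine ⟨A + B, by positivity, ?_⟩
  intro t m Y hm hs hY hd
  have hm' : (1 : ℝ) ≤ m := by exact_mod_cast hm
  have hm0 : (0 : ℝ) < m := by linarith
  have hL : Real.log 2 ≤ Real.log (2 * m) := Real.log_le_log (by norm_num) (by linarith)
  have hL0 : 0 < Real.log (2 * m) := lt_of_lt_of_le h2 hL
  have hLm : Real.log m ≤ Real.log (2 * m) := Real.log_le_log hm0 (by linarith)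
  rcases le_or_gt T t with hT | hT
  · have h3 := h t m Y hT hs hY hd
    have h4 : (Y.card : ℝ) ≤ K * (m : ℝ) ^ 4 := by
      have := cnt m Y hm hY
      rw [hK]
      exact_mod_cast this
    rcases Nat.eq_zero_or_pos t with h0 | h0
    · subst h0
      simp
      positivity
    · have ht0 : (0 : ℝ) < t := by exact_mod_cast h0
      have h5 : Real.log ((t : ℝ) ^ (c * t)) ≤ Real.log (K * (m : ℝ) ^ 4) :=
        Real.log_le_log (Real.rpow_pos_of_pos ht0 _) (h3.trans h4)
      rw [Real.log_rpow ht0, Real.log_mul (by linarith) (by positivity), Real.log_pow] at h5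
      have h6 : Real.log K ≤ Real.log K / Real.log 2 * Real.log (2 * m) := by
        rw [div_mul_eq_mul_div, le_div_iff₀ h2]
        exact mul_le_mul_of_nonneg_left hL hlK
      have h7 : c * ((t : ℝ) * Real.log t) ≤ (Real.log K / Real.log 2 + 4) * Real.log (2 * m) := by
        push_cast at h5
        calc c * ((t : ℝ) * Real.log t) = c * t * Real.log t := by ring
          _ ≤ Real.log K + 4 * Real.log m := h5
          _ ≤ Real.log K / Real.log 2 * Real.log (2 * m) + 4 * Real.log (2 * m) :=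
            add_le_add h6 (mul_le_mul_of_nonneg_left hLm (by norm_num))
          _ = _ := by ring
      have h8 : (t : ℝ) * Real.log t ≤ A * Real.log (2 * m) := by
        rw [hA, div_mul_eq_mul_div, le_div_iff₀ hc]
        linarith
      have h9 : 0 ≤ B * Real.log (2 * m) := by positivity
      linarith
  · have h3 : (t : ℝ) * Real.log t ≤ (T : ℝ) * Real.log T := by
      rcases Nat.eq_zero_or_pos t with h0 | h0
      · subst h0
        simp
        have : 0 ≤ Real.log (T : ℝ) := Real.log_natCast_nonneg T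
        positivity
      · have ht0 : (0 : ℝ) < t := by exact_mod_cast h0
        have h5 : (t : ℝ) ≤ T := by exact_mod_cast hT.le
        exact mul_le_mul h5 (Real.log_le_log ht0 h5) (Real.log_natCast_nonneg t) (by positivity)
    have h4 : (T : ℝ) * Real.log T ≤ B * Real.log (2 * m) := by
      rw [hB, div_mul_eq_mul_div, le_div_iff₀ h2]
      have : 0 ≤ Real.log (T : ℝ) := Real.log_natCast_nonneg T
      exact mul_le_mul_of_nonneg_left hL (by positivity)
    have h5 : 0 ≤ A * Real.log (2 * m) := by positivity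
    linarith

end Pool.Agent.Helper17K9.ED
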