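import Pool.Agent.Helper17K9.ED.Stm

set_option autoImplicit false

open MeasureTheory Metric Set

namespace Pool.Agent.Helper17K9.ED

open Pool.Agent.Q10.E8

namespace SphL

open Polynomial in
theorem M_two (k : ℕ) (i : Fin 8) (hi : i ≠ 0) :
    ((2 * (k : ℝ)) + 1) * M i (2 * k) 2 = F (2 * (k + 1)) (e 0) := by
  set f : ℝ := F (2 * (k + 1)) (e 0) with hf
  have hPQ : ((1 + X ^ 2) ^ (k + 1) * C f : ℝ[X])
      = ∑ j ∈ Finset.range (2 * (k + 1) + 1),
        C ((((2 * (k + 1)).choose j : ℕ) : ℝ) * M i j (2 * (k + 1) - j)) * X ^ (2 * (k + 1) - j) := by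
    apply Polynomial.funext
    intro x
    have h := key (k + 1) i hi x
    simp only [eval_mul, eval_pow, eval_add, eval_one, eval_X, eval_C, eval_finsetSum]
    rw [hf, h]
    refine Finset.sum_congr rfl fun j _ => ?_
    ring
  have h2 := congrArg (fun p => Polynomial.coeff p 2) hPQ
  simp only [coeff_mul_C, finsetSum_coeff, coeff_C_mul, coeff_X_pow] at h2
  have hL : ((1 + X ^ 2 : ℝ[X]) ^ (k + 1)).coeff 2 = (k : ℝ) + 1 := by
    rw [add_comm, add_pow]
    simp only [one_pow, mul_one, finsetSum_coeff, ← pow_mul]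
    rw [Finset.sum_eq_single 1]
    · rw [← Polynomial.C_eq_natCast, Polynomial.coeff_mul_C, coeff_X_pow]
      simp
    · intro b _ hb
      rw [← Polynomial.C_eq_natCast, Polynomial.coeff_mul_C, coeff_X_pow]
      rw [if_neg (by omega)]
      simp
    · intro h
      exfalso
      apply h
      simp
  rw [hL] at h2
  rw [Finset.sum_eq_single (2 * k)] at h2
  · have e1 : 2 * (k + 1) - 2 * k = 2 := by omega
    rw [e1, if_pos rfl] at h2
    have e2 : (((2 * (k + 1)).choose (2 * k) : ℕ) : ℝ) = ((k : ℝ) + 1) * (2 * k + 1) := by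
      have : (2 * (k + 1)).choose (2 * k) = (2 * (k + 1)).choose 2 := by
        rw [← Nat.choose_symm (by omega : 2 ≤ 2 * (k + 1))]
        congr 1
      rw [this, Nat.cast_choose_two]
      push_cast
      ring
    rw [e2] at h2
    have hk : (k : ℝ) + 1 ≠ 0 := by positivity
    apply mul_left_cancel₀ hk
    linarith
  · intro b hb hb'
    rw [Finset.mem_range] at hb
    rw [if_neg (by omega)]
    simp
  · intro h
    exfalso
    apply h
    rw [Finset.mem_range]
    omega

theorem F_rec (k : ℕ) : (2 * (k : ℝ) + 8) * F (2 * (k + 1)) (e 0) = (2 * (k : ℝ) + 1) * F (2 * k) (e 0) := by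
  have h := rec_M (2 * k)
  rw [Fin.sum_univ_eight, M_zero] at h
  have h1 := M_two k 1 (by decide)
  have h2 := M_two k 2 (by decide)
  have h3 := M_two k 3 (by decide)
  have h4 := M_two k 4 (by decide)
  have h5 := M_two k 5 (by decide)
  have h6 := M_two k 6 (by decide)
  have h7 := M_two k 7 (by decide)
  rw [h, show 2 * k + 2 = 2 * (k + 1) by ring]
  linear_combination -h1 - h2 - h3 - h4 - h5 - h6 - h7

theorem sc_rec (h : S_SUP) (k : ℕ) : ((k : ℤ) + 4) * sc (k + 1) = 2 * (2 * (k : ℤ) + 1) * sc k := by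
  have h1 := h k
  have h2 := h (k + 1)
  have h3 : ((k : ℤ) + 1) * (Nat.centralBinom (k + 1) : ℤ) = 2 * (2 * k + 1) * (Nat.centralBinom k : ℤ) := by
    exact_mod_cast Nat.succ_mul_centralBinom_succ k
  push_cast at h2
  have hk : (((k : ℤ) + 1) * (k + 2) * (k + 3)) ≠ 0 := by positivity
  apply mul_left_cancel₀ hk
  linear_combination ((k : ℤ) + 1) * h2 + 60 * h3 - 2 * (2 * (k : ℤ) + 1) * h1

end SphL

open SphL in
theorem sph (h : S_SUP) : S_SPH := by
  intro k
  induction k with
  | zero =>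
    have h0 : sc 0 = 10 := by
      have := h 0
      simp at this
      omega
    rw [h0]
    simp [F0]
  | succ k ih =>
    have h1 := F_rec k
    have h2 : ((k : ℝ) + 4) * (sc (k + 1) : ℝ) = 2 * (2 * (k : ℝ) + 1) * (sc k : ℝ) := by
      exact_mod_cast sc_rec h k
    have hk : (k : ℝ) + 4 ≠ 0 := by positivity
    apply mul_left_cancel₀ hk
    rw [← mul_assoc ((k : ℝ) + 4) (sc (k + 1) : ℝ), h2, pow_succ]
    linear_combination 20 * 4 ^ k * h1 + (2 * (2 * (k : ℝ) + 1)) * ih

end Pool.Agent.Helper17K9.ED
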