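import Pool.Agent.Q10.E8.MainA

set_option autoImplicit false

/-!
# Relay ED (helper17, MP_130199_nt, hard): designs inside the shells of the lattice `E_8`

Final theorem.  Let `m ≥ 1`, `S_m` the shell of norm `2m`, `Y ⊆ S_m` finite with integral weights `w`, such that
the cubature formula of degree `t` holds (for instance a spherical `t`-design), `W = ∑ w`.
(1) for every prime number `ℓ` not dividing `m` and every `q = 2p` or `q = 2p - 1` with `2p + 5 < ℓ` and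
    `2pℓ ≤ t`, resp. `(2p-1)ℓ + 1 ≤ t`:  `ℓ^q ∣ W`; in particular `∏_{ℓ < t} ℓ ∣ 210 m W`.
(2) every `t`-design contained in a shell `S_m` has `t ≤ C log (2m)`.
(3) if `m` has no prime factor `≤ t`, it has at least `t^(ct)` points.

Names: the shells are in the library `Pool.Agent.Q10.E8` (doubled coordinates; `IsE8`, `InShell m v`,
`pr v r` = inner product, an integer; `Cubature t m Y w`; `F`, `M`, `key`, `rec_M`, `M_zero` in `Sph`).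
-/

namespace Pool.Agent.Helper17K9.ED

open Pool.Agent.Q10.E8

/-- Ten times the normalised even moments: `10, 5, 6, 10, 20, 45, 110, ...`. -/
noncomputable def sc (k : ℕ) : ℤ := 16 * (catalan k : ℤ) - 8 * (catalan (k + 1) : ℤ) + (catalan (k + 2) : ℤ)

/-- [SUP].  From `catalan_eq_centralBinom_div`, `succ_mul_catalan_eq_centralBinom` and
`Nat.succ_mul_centralBinom_succ`: with `b = centralBinom k`, `(k+1) C_k = b`, `(k+1) b' = 2(2k+1) b`,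
`(k+2) b'' = 2(2k+3) b'`; multiply everything by `(k+1)(k+2)(k+3)` (times `k+1`, cancel). -/
def S_SUP : Prop := ∀ k : ℕ,
  sc k * (((k : ℤ) + 1) * ((k : ℤ) + 2) * ((k : ℤ) + 3)) = 60 * (Nat.centralBinom k : ℤ)

/-- [SPH].  `F (2k) (e 0)` = integral of `u_0^(2k)` over the sphere.  From the coefficient of `x^2` in
`key (k+1) i hi x` (a polynomial identity in `x`, for instance `Polynomial.funext`):
`M i (2k) 2 = F (2k+2) (e 0) / (2k+1)` for `i ≠ 0`; then `rec_M (2k)`, `M_zero (2k) 2` give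
`F (2k) = F (2k+2) (2k+8)/(2k+1)`.  With [SUP]: `(k+4) sc (k+1) = 2 (2k+1) sc k`. Start `F0`. -/
def S_SPH : Prop := ∀ k : ℕ,
  10 * 4 ^ k * F (2 * k) (e 0) = (sc k : ℝ) * sg.real Set.univ

/-- [MOM].  As `moments_int` in `Cub.lean`, with `F_eq`, [SPH] and `moment`, `aux_z`, `vol_pos`. -/
def S_MOM : Prop := ∀ (t m : ℕ) (Y : Finset (Fin 8 → ℤ)) (w : (Fin 8 → ℤ) → ℤ),
  Cubature t m Y (fun v => (w v : ℝ)) → (∀ v ∈ Y, IsE8 v) →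
  ∀ r : Fin 8 → ℤ, IsE8 r → ∀ s : ℕ, ∑ i, r i ^ 2 = 8 * (s : ℤ) → ∀ k : ℕ, 2 * k ≤ t →
    10 * ∑ v ∈ Y, w v * (pr v r) ^ (2 * k) = (∑ v ∈ Y, w v) * (sc k * ((m : ℤ) * s) ^ k)

/-- [LUE].  Put `κ = p + a(ℓ-1) = ℓ a + (p - a)`; `sc κ (κ+1)(κ+2)(κ+3) = 60 C(2κ, κ)`, Lucas
(`Choose.choose_modEq_choose_mod_mul_choose_div_nat`): `C(2κ, κ) ≡ C(2a, a) C(2(p-a), p-a)`, and
`(κ+1)(κ+2)(κ+3) ≡ (p-a+1)(p-a+2)(p-a+3)` is a unit modulo `ℓ`. -/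
def S_LUE : Prop := ∀ l p a : ℕ, l.Prime → a ≤ p → 2 * p + 5 < l →
  ((sc (p + a * (l - 1)) : ℤ) : ZMod l) = (Nat.choose (2 * a) a : ZMod l) * ((sc (p - a) : ℤ) : ZMod l)

/-- [LUO].  Put `κ = p + (2a+1)(ℓ-1)/2 = ℓ a + (p - a + (ℓ-1)/2)`, `2κ = ℓ (2a+1) + (2p-2a-1)`; Lucas:
`C(2κ, κ) ≡ C(2a+1, a) C(2p-2a-1, p-a+(ℓ-1)/2) = 0`, and `κ+1, κ+2, κ+3` are units
(`κ + 3 ≡ p - a + (ℓ+5)/2 < ℓ`). -/
def S_LUO : Prop := ∀ l p a : ℕ, l.Prime → a < p → 2 * p + 5 < l →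
  ((sc (p + a * (l - 1) + (l - 1) / 2) : ℤ) : ZMod l) = 0

/-- [VDE].  `C(2p,2a) C(2a,a) C(2b,b) = C(2p,p) C(p,b)^2` for `a + b = p`,
`C(p,b)/((b+1)(b+2)(b+3)) = C(p+3,b+3)/((p+1)(p+2)(p+3))`, and `∑_b C(p,b) C(p+3,p-b) = C(2p+3,p)`
(`Nat.add_choose_eq` = Vandermonde). -/
def S_VDE : Prop := ∀ p : ℕ,
  (∑ a ∈ Finset.range (p + 1), (Nat.choose (2 * p) (2 * a) : ℤ) * (Nat.choose (2 * a) a : ℤ) * sc (p - a))
    * (((p : ℤ) + 1) * ((p : ℤ) + 2) * ((p : ℤ) + 3))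
  = 60 * (Nat.centralBinom p : ℤ) * (Nat.choose (2 * p + 3) p : ℤ)

/-- [VDO].  The same with `C(2p-1,2a) = C(2p,2a) (p-a)/p`, `b C(p,b) = p C(p-1,b-1)` and
`∑_b C(p-1,b-1) C(p+3,b+3) = C(2p+2,p+3)`. -/
def S_VDO : Prop := ∀ p : ℕ, 1 ≤ p →
  (∑ a ∈ Finset.range p, (Nat.choose (2 * p - 1) (2 * a) : ℤ) * (Nat.choose (2 * a) a : ℤ) * sc (p - a))
    * (((p : ℤ) + 1) * ((p : ℤ) + 2) * ((p : ℤ) + 3))
  = 60 * (Nat.centralBinom p : ℤ) * (Nat.choose (2 * p + 2) (p + 3) : ℤ)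

/-- [EXE].  The polynomial `(x^ℓ - x)^(2p)`: value of the linear functional `x^(2k) ↦ sc k * M^k`, modulo `ℓ`.
`∑_i C(2p,i) (-1)^i sc(p + i(ℓ-1)/2) M^(p + i(ℓ-1)/2)`: odd `i` vanish by [LUO], even `i = 2a` by [LUE] and
`M^(ℓ-1) = 1`; then [VDE], and `60 C(2p,p) C(2p+3,p)` is a unit modulo `ℓ` (all prime factors `≤ 2p+3`,
or `5`, below `ℓ`). -/
def S_EXE : Prop := ∀ l p : ℕ, l.Prime → 2 * p + 5 < l → 5 < l → ∀ M : ZMod l, M ≠ 0 →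
  ∑ i ∈ Finset.range (2 * p + 1), (Nat.choose (2 * p) i : ZMod l) * (-1) ^ i
    * (((sc (p + i * ((l - 1) / 2)) : ℤ) : ZMod l) * M ^ (p + i * ((l - 1) / 2))) ≠ 0

/-- [EXO].  The same for `(x^ℓ - x)^(2p-1) x` (up to sign). -/
def S_EXO : Prop := ∀ l p : ℕ, l.Prime → 1 ≤ p → 2 * p + 5 < l → ∀ M : ZMod l, M ≠ 0 →
  ∑ i ∈ Finset.range (2 * p), (Nat.choose (2 * p - 1) i : ZMod l) * (-1) ^ i
    * (((sc (p + i * ((l - 1) / 2)) : ℤ) : ZMod l) * M ^ (p + i * ((l - 1) / 2))) ≠ 0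

/-- [DVE].  Take `s = 1` and a root `r` (`exists_vec 1`): `10 ∑ w (j^ℓ - j)^(2p) = W A` with
`A = ∑_i C(2p,i) (-1)^i sc(..) m^(..)` (expand with `sub_pow` or `(-x + x^ℓ)` and `add_pow`; the exponent
`ℓ i + (2p - i) = 2 (p + i (ℓ-1)/2)` is even), the left side is divisible by `ℓ^(2p)` (`j^ℓ ≡ j`), `A` is prime
to `ℓ` by [EXE]. -/
def S_DVE : Prop := ∀ (t m : ℕ) (Y : Finset (Fin 8 → ℤ)) (w : (Fin 8 → ℤ) → ℤ),
  Cubature t m Y (fun v => (w v : ℝ)) → (∀ v ∈ Y, IsE8 v) →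
  ∀ l p : ℕ, l.Prime → ¬ l ∣ m → 2 * p + 5 < l → 5 < l → 2 * p * l ≤ t → (l : ℤ) ^ (2 * p) ∣ ∑ v ∈ Y, w v

/-- [DVO].  The same with `j (j^ℓ - j)^(2p-1)`. -/
def S_DVO : Prop := ∀ (t m : ℕ) (Y : Finset (Fin 8 → ℤ)) (w : (Fin 8 → ℤ) → ℤ),
  Cubature t m Y (fun v => (w v : ℝ)) → (∀ v ∈ Y, IsE8 v) →
  ∀ l p : ℕ, l.Prime → ¬ l ∣ m → 1 ≤ p → 2 * p + 5 < l → (2 * p - 1) * l + 1 ≤ t →
    (l : ℤ) ^ (2 * p - 1) ∣ ∑ v ∈ Y, w v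

/-- [PRD].  From [DVO] with `p = 1` (primes `11 ≤ ℓ ≤ t - 1` not dividing `m`); primes `2, 3, 5, 7` divide `210`,
the others divide `m`; a squarefree number divides as soon as its prime factors do. -/
def S_PRD : Prop := ∀ (t m : ℕ) (Y : Finset (Fin 8 → ℤ)) (w : (Fin 8 → ℤ) → ℤ),
  Cubature t m Y (fun v => (w v : ℝ)) → (∀ v ∈ Y, IsE8 v) →
    ((primorial (t - 1) : ℕ) : ℤ) ∣ 210 * (m : ℤ) * ∑ v ∈ Y, w v

/-- [CNT].  `v_i^2 ≤ 8 m`, so `|v_i| ≤ √(8m)`, at most `3 √(8m)` values (`m ≥ 1`):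
`(2 √(8m) + 1)^8 ≤ (3 √(8m))^8 = 3^8 8^4 m^4`. -/
def S_CNT : Prop := ∀ (m : ℕ) (Y : Finset (Fin 8 → ℤ)), 1 ≤ m → (∀ v ∈ Y, InShell m v) →
  Y.card ≤ 3 ^ 8 * 8 ^ 4 * m ^ 4

/-- [LOG].  [PRD] with `w = 1`, [CNT]: `primorial (t-1) ≤ 210 m |Y| ≤ C m^5`, and `θ(t-1) ≥ c t`
(Mathlib: `Chebyshev.theta_ge` or what is there; `primorial` and `Chebyshev.theta`). -/
def S_LOG : Prop := ∃ C : ℝ, 0 < C ∧ ∀ (t m : ℕ) (Y : Finset (Fin 8 → ℤ)), 1 ≤ m →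
  (∀ v ∈ Y, InShell m v) → IsDesign t m Y → (t : ℝ) ≤ C * Real.log (2 * m)

/-- [MER].  Analytic part of [BIG]: `∑ (log ℓ)/ℓ` over the primes `√(2t) ≤ ℓ ≤ t/2` is at least `c log t` for
large `t`.  Blocks `(x, K x]` with a large constant `K`: `∑ ≥ (θ(Kx) - θ(x))/(Kx)`, Chebyshev's bounds for
`θ` from both sides. -/
def S_MER : Prop := ∃ c : ℝ, 0 < c ∧ ∃ T : ℕ, ∀ t : ℕ, T ≤ t →
  c * Real.log t ≤ ∑ l ∈ (Finset.Icc 1 (t / 2)).filter (fun l => l.Prime ∧ 2 * t ≤ l ^ 2), Real.log l / l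

/-- [BIG].  For `ℓ` in the range of [MER] take `2p = 2 ⌊t/(2ℓ)⌋ ≥ t/(2ℓ)` (`2p + 5 < ℓ` since `2p ≤ t/ℓ ≤ ℓ/2`
and `ℓ > 10`), [DVE]: `∏ ℓ^(2p) ∣ |Y|`, so `log |Y| ≥ (t/2) ∑ (log ℓ)/ℓ`.  For small `t` choose `c` small
(`|Y| ≥ 2` when `t ≥ 1`, from the moment of degree one, or state only for `t ≥ T` as here). -/
def S_BIG : Prop := ∃ c : ℝ, 0 < c ∧ ∃ T : ℕ, ∀ (t m : ℕ) (Y : Finset (Fin 8 → ℤ)), T ≤ t →
  (∀ l : ℕ, l.Prime → l ≤ t → ¬ l ∣ m) → (∀ v ∈ Y, InShell m v) → IsDesign t m Y →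
    (t : ℝ) ^ (c * t) ≤ (Y.card : ℝ)

end Pool.Agent.Helper17K9.ED
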