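import Pool.Agent.Helper17K9.ED.Stm

set_option autoImplicit false

/-!
# Relay ED: the leaf SUP
-/

namespace Pool.Agent.Helper17K9.ED

theorem sup : S_SUP := by
  intro k
  have h0 : (k + 1) * catalan k = Nat.centralBinom k := succ_mul_catalan_eq_centralBinom k
  have h1 : (k + 1 + 1) * catalan (k + 1) = Nat.centralBinom (k + 1) :=
    succ_mul_catalan_eq_centralBinom (k + 1)
  have h2 : (k + 2 + 1) * catalan (k + 2) = Nat.centralBinom (k + 2) :=
    succ_mul_catalan_eq_centralBinom (k + 2)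
  have h3 : (k + 1) * Nat.centralBinom (k + 1) = 2 * (2 * k + 1) * Nat.centralBinom k :=
    Nat.succ_mul_centralBinom_succ k
  have h4 : (k + 1 + 1) * Nat.centralBinom (k + 1 + 1) =
      2 * (2 * (k + 1) + 1) * Nat.centralBinom (k + 1) := Nat.succ_mul_centralBinom_succ (k + 1)
  have h0' : ((k : ℤ) + 1) * (catalan k : ℤ) = (Nat.centralBinom k : ℤ) := by exact_mod_cast h0
  have h1' : ((k : ℤ) + 2) * (catalan (k + 1) : ℤ) = (Nat.centralBinom (k + 1) : ℤ) := by
    have : ((k : ℤ) + 1 + 1) * (catalan (k + 1) : ℤ) = (Nat.centralBinom (k + 1) : ℤ) := by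
      exact_mod_cast h1
    linear_combination this
  have h2' : ((k : ℤ) + 3) * (catalan (k + 2) : ℤ) = (Nat.centralBinom (k + 2) : ℤ) := by
    have : ((k : ℤ) + 2 + 1) * (catalan (k + 2) : ℤ) = (Nat.centralBinom (k + 2) : ℤ) := by
      exact_mod_cast h2
    linear_combination this
  have h3' : ((k : ℤ) + 1) * (Nat.centralBinom (k + 1) : ℤ) =
      2 * (2 * (k : ℤ) + 1) * (Nat.centralBinom k : ℤ) := by exact_mod_cast h3
  have h4' : ((k : ℤ) + 2) * (Nat.centralBinom (k + 2) : ℤ) =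
      2 * (2 * (k : ℤ) + 3) * (Nat.centralBinom (k + 1) : ℤ) := by
    have : ((k : ℤ) + 1 + 1) * (Nat.centralBinom (k + 1 + 1) : ℤ) =
      2 * (2 * ((k : ℤ) + 1) + 1) * (Nat.centralBinom (k + 1) : ℤ) := by exact_mod_cast h4
    linear_combination this
  unfold sc
  linear_combination 16 * ((k : ℤ) + 2) * ((k : ℤ) + 3) * h0' - 8 * ((k : ℤ) + 1) * ((k : ℤ) + 3) * h1' +
    ((k : ℤ) + 1) * ((k : ℤ) + 2) * h2' + ((k : ℤ) + 1) * h4' +
    (-8 * ((k : ℤ) + 3) + 2 * (2 * (k : ℤ) + 3)) * h3'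

end Pool.Agent.Helper17K9.ED
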