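import Pool.Agent.Helper17K9.ED.Dvd
import Pool.Agent.Helper17K9.ED.Sup
import Pool.Agent.Helper17K9.ED.Luc
import Pool.Agent.Helper17K9.ED.Ex
import Pool.Agent.Helper17K9.ED.Sph
import Pool.Agent.Helper17K9.ED.Mom
import Pool.Agent.Helper86K9.ED.Lu

set_option autoImplicit false

/-!
# Uniform divisibility, without the hypothesis that `ℓ` does not divide `m`
-/

namespace Pool.Agent.Helper17K9.ED

open Pool.Agent.Q10.E8

namespace UpL

theorem sc_ne {l p : ℕ} (hl : l.Prime) (hp : 2 * p + 5 < l) (h5 : 5 < l) :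
    ((sc p : ℤ) : ZMod l) ≠ 0 := by
  intro h0
  have := Fact.mk hl
  have h1 := congrArg (fun z : ℤ => (z : ZMod l)) (sup p)
  simp only [Int.cast_mul, Int.cast_add, Int.cast_natCast, Int.cast_one, Int.cast_ofNat] at h1
  rw [h0, zero_mul, Nat.centralBinom] at h1
  exact mul_ne_zero (ExL.sixty_ne hl h5) (ExL.choose_ne hl (by omega) (by omega)) h1.symm

/-- the reduced sum -/
theorem U_ne {l p : ℕ} (hl : l.Prime) (hp : 2 * p + 5 < l) (h5 : 5 < l) (m n : ℕ) (hn : 0 < n)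
    (c : ℕ → ℤ) (hc : c 0 = 1)
    (hE : ∀ M : ZMod l, M ≠ 0 → ∑ i ∈ Finset.range n, ((c i : ℤ) : ZMod l)
      * (((sc (p + i * ((l - 1) / 2)) : ℤ) : ZMod l) * M ^ (p + i * ((l - 1) / 2))) ≠ 0) :
    ((∑ i ∈ Finset.range n, c i * (sc (p + i * ((l - 1) / 2)) * (m : ℤ) ^ (i * ((l - 1) / 2))) : ℤ)
      : ZMod l) ≠ 0 := by
  have := Fact.mk hl
  push_cast
  by_cases h0 : (m : ZMod l) = 0
  · rw [h0, Finset.sum_eq_single 0]
    · rw [hc]
      simp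
      exact sc_ne hl hp h5
    · intro b _ hb
      have h1 : b * ((l - 1) / 2) ≠ 0 := by
        have h2 : 0 < (l - 1) / 2 := by omega
        exact Nat.mul_ne_zero hb h2.ne'
      rw [zero_pow h1]
      ring
    · intro h
      exact absurd (Finset.mem_range.mpr hn) h
  · intro h1
    apply hE (m : ZMod l) h0
    have h2 : ∑ i ∈ Finset.range n, ((c i : ℤ) : ZMod l)
        * (((sc (p + i * ((l - 1) / 2)) : ℤ) : ZMod l) * (m : ZMod l) ^ (p + i * ((l - 1) / 2)))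
        = (m : ZMod l) ^ p * ∑ i ∈ Finset.range n, ((c i : ℤ) : ZMod l)
        * (((sc (p + i * ((l - 1) / 2)) : ℤ) : ZMod l) * (m : ZMod l) ^ (i * ((l - 1) / 2))) := by
      rw [Finset.mul_sum]
      refine Finset.sum_congr rfl fun i _ => ?_
      rw [pow_add]
      ring
    rw [h2, h1, mul_zero]

theorem factor (p n h : ℕ) (c : ℕ → ℤ) (m : ℤ) :
    ∑ i ∈ Finset.range n, c i * (sc (p + i * h) * m ^ (p + i * h))
      = m ^ p * ∑ i ∈ Finset.range n, c i * (sc (p + i * h) * m ^ (i * h)) := by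
  rw [Finset.mul_sum]
  refine Finset.sum_congr rfl fun i _ => ?_
  rw [pow_add]
  ring

theorem hEven {l p : ℕ} (hl : l.Prime) (hp : 2 * p + 5 < l) (h5 : 5 < l) (M : ZMod l) (hM : M ≠ 0) :
    ∑ i ∈ Finset.range (2 * p + 1), ((((Nat.choose (2 * p) i : ℤ) * (-1) ^ i : ℤ)) : ZMod l)
      * (((sc (p + i * ((l - 1) / 2)) : ℤ) : ZMod l) * M ^ (p + i * ((l - 1) / 2))) ≠ 0 := by
  have h := exe (lue sup) (luo sup) (Pool.Agent.Helper86K9.ED.vde sup) l p hl hp h5 M hM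
  push_cast
  exact h

theorem hOdd {l p : ℕ} (hl : l.Prime) (hp1 : 1 ≤ p) (hp : 2 * p + 5 < l) (M : ZMod l) (hM : M ≠ 0) :
    ∑ i ∈ Finset.range (2 * p), ((((Nat.choose (2 * p - 1) i : ℤ) * (-1) ^ i : ℤ)) : ZMod l)
      * (((sc (p + i * ((l - 1) / 2)) : ℤ) : ZMod l) * M ^ (p + i * ((l - 1) / 2))) ≠ 0 := by
  have h := exo (lue sup) (luo sup) (Pool.Agent.Helper86K9.ED.vdo sup) l p hl hp1 hp M hM
  push_cast
  exact h

theorem deg_even {l p t i : ℕ} (hl : l.Prime) (h5 : 5 < l) (ht : 2 * p * l ≤ t)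
    (hi : i ∈ Finset.range (2 * p + 1)) : 2 * (p + i * ((l - 1) / 2)) ≤ t := by
  rw [Finset.mem_range] at hi
  have h1 := DvL.half hl h5
  have h2 : 2 * (p + i * ((l - 1) / 2)) = 2 * p + i * (2 * ((l - 1) / 2)) := by ring
  rw [h2, h1]
  have h3 : i * (l - 1) ≤ 2 * p * (l - 1) := Nat.mul_le_mul_right _ (by omega)
  have h4 : 2 * p * l = 2 * p * (l - 1) + 2 * p := by
    obtain ⟨k, rfl⟩ : ∃ k, l = k + 1 := ⟨l - 1, by omega⟩
    simp only [Nat.add_sub_cancel]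
    ring
  omega

theorem deg_odd {l p t i : ℕ} (hl : l.Prime) (h5 : 5 < l) (ht : (2 * p - 1) * l + 1 ≤ t)
    (hp1 : 1 ≤ p) (hi : i ∈ Finset.range (2 * p)) : 2 * (p + i * ((l - 1) / 2)) ≤ t := by
  rw [Finset.mem_range] at hi
  have h1 := DvL.half hl h5
  have h2 : 2 * (p + i * ((l - 1) / 2)) = 2 * p + i * (2 * ((l - 1) / 2)) := by ring
  rw [h2, h1]
  have h3 : i * (l - 1) ≤ (2 * p - 1) * (l - 1) := Nat.mul_le_mul_right _ (by omega)
  have h4 : (2 * p - 1) * l = (2 * p - 1) * (l - 1) + (2 * p - 1) := by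
    obtain ⟨k, rfl⟩ : ∃ k, l = k + 1 := ⟨l - 1, by omega⟩
    simp only [Nat.add_sub_cancel]
    ring
  omega

end UpL

open DvL UpL

theorem dve2 (t m : ℕ) (Y : Finset (Fin 8 → ℤ)) (w : (Fin 8 → ℤ) → ℤ)
    (h : Cubature t m Y (fun v => (w v : ℝ))) (hY : ∀ v ∈ Y, IsE8 v) (l p : ℕ) (hl : l.Prime)
    (hp : 2 * p + 5 < l) (h5 : 5 < l) (ht : 2 * p * l ≤ t) :
    (l : ℤ) ^ (2 * p) ∣ (m : ℤ) ^ p * ∑ v ∈ Y, w v := by
  obtain ⟨r, hr, hs⟩ := exists_vec 1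
  have hc := comb (mom (sph sup)) h hY hr hs (2 * p + 1)
    (fun i => (Nat.choose (2 * p) i : ℤ) * (-1) ^ i)
    (fun i => p + i * ((l - 1) / 2)) (fun i hi => deg_even hl h5 ht hi)
  rw [factor p (2 * p + 1) ((l - 1) / 2)] at hc
  rw [mul_comm ((m : ℤ) ^ p)]
  refine fin hl (A := ∑ i ∈ Finset.range (2 * p + 1), ((Nat.choose (2 * p) i : ℤ) * (-1) ^ i)
    * (sc (p + i * ((l - 1) / 2)) * (m : ℤ) ^ (i * ((l - 1) / 2)))) ?_ ?_
  · rw [mul_assoc, ← hc]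
    refine Dvd.dvd.mul_left ?_ _
    refine Finset.dvd_sum fun v _ => Dvd.dvd.mul_left ?_ _
    rw [← exp_even hl h5]
    exact pow_dvd_pow_of_dvd (fermat hl _) _
  · exact U_ne hl hp h5 m (2 * p + 1) (by omega) (fun i => (Nat.choose (2 * p) i : ℤ) * (-1) ^ i)
      (by simp) (hEven hl hp h5)

theorem dvo2 (t m : ℕ) (Y : Finset (Fin 8 → ℤ)) (w : (Fin 8 → ℤ) → ℤ)
    (h : Cubature t m Y (fun v => (w v : ℝ))) (hY : ∀ v ∈ Y, IsE8 v) (l p : ℕ) (hl : l.Prime)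
    (hp1 : 1 ≤ p) (hp : 2 * p + 5 < l) (ht : (2 * p - 1) * l + 1 ≤ t) :
    (l : ℤ) ^ (2 * p - 1) ∣ (m : ℤ) ^ p * ∑ v ∈ Y, w v := by
  have h5 : 5 < l := by omega
  obtain ⟨r, hr, hs⟩ := exists_vec 1
  have hc := comb (mom (sph sup)) h hY hr hs (2 * p)
    (fun i => (Nat.choose (2 * p - 1) i : ℤ) * (-1) ^ i)
    (fun i => p + i * ((l - 1) / 2)) (fun i hi => deg_odd hl h5 ht hp1 hi)
  rw [factor p (2 * p) ((l - 1) / 2)] at hc
  rw [mul_comm ((m : ℤ) ^ p)]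
  refine fin hl (A := ∑ i ∈ Finset.range (2 * p), ((Nat.choose (2 * p - 1) i : ℤ) * (-1) ^ i)
    * (sc (p + i * ((l - 1) / 2)) * (m : ℤ) ^ (i * ((l - 1) / 2)))) ?_ ?_
  · rw [mul_assoc, ← hc]
    refine Dvd.dvd.mul_left ?_ _
    refine Finset.dvd_sum fun v _ => Dvd.dvd.mul_left ?_ _
    have h1 := exp_odd hl h5 p hp1 (pr v r)
    have h2 : (l : ℤ) ^ (2 * p - 1) ∣ (pr v r ^ l - pr v r) ^ (2 * p - 1) * pr v r :=
      Dvd.dvd.mul_right (pow_dvd_pow_of_dvd (fermat hl _) _) _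
    rw [h1] at h2
    exact (dvd_neg.mp h2)
  · exact U_ne hl hp h5 m (2 * p) (by omega) (fun i => (Nat.choose (2 * p - 1) i : ℤ) * (-1) ^ i)
      (by simp) (hOdd hl hp1 hp)

/-- the case of a prime number whose square does not divide `m` -/
theorem dvs (t m : ℕ) (Y : Finset (Fin 8 → ℤ)) (w : (Fin 8 → ℤ) → ℤ)
    (h : Cubature t m Y (fun v => (w v : ℝ))) (hY : ∀ v ∈ Y, IsE8 v) (l p : ℕ) (hl : l.Prime)
    (hp : 2 * p + 5 < l) (h5 : 5 < l) (ht : 2 * p * l ≤ t) (hm : ¬ l ^ 2 ∣ m) :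
    (l : ℤ) ^ p ∣ ∑ v ∈ Y, w v := by
  have h1 := dve2 t m Y w h hY l p hl hp h5 ht
  have hpr : Prime (l : ℤ) := Nat.prime_iff_prime_int.mp hl
  have hl0 : (l : ℤ) ≠ 0 := hpr.ne_zero
  by_cases h2 : l ∣ m
  · obtain ⟨a, rfl⟩ := h2
    have h3 : ¬ (l : ℤ) ∣ (a : ℤ) := by
      intro h4
      apply hm
      have h6 : l ∣ a := by exact_mod_cast h4
      rw [sq]
      exact Nat.mul_dvd_mul_left l h6
    have h7 : (l : ℤ) ^ p * (l : ℤ) ^ p ∣ (l : ℤ) ^ p * ((a : ℤ) ^ p * ∑ v ∈ Y, w v) := by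
      have e1 : (l : ℤ) ^ (2 * p) = (l : ℤ) ^ p * (l : ℤ) ^ p := by rw [two_mul, pow_add]
      have e2 : ((l * a : ℕ) : ℤ) ^ p * ∑ v ∈ Y, w v = (l : ℤ) ^ p * ((a : ℤ) ^ p * ∑ v ∈ Y, w v) := by
        push_cast
        rw [mul_pow]
        ring
      rw [← e1, ← e2]
      exact h1
    have h8 := (mul_dvd_mul_iff_left (pow_ne_zero p hl0)).mp h7
    have hc : IsCoprime ((l : ℤ) ^ p) ((a : ℤ) ^ p) :=
      IsCoprime.pow ((Prime.coprime_iff_not_dvd hpr).mpr h3)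
    exact hc.dvd_of_dvd_mul_left h8
  · have hc : IsCoprime ((l : ℤ) ^ (2 * p)) ((m : ℤ) ^ p) :=
      IsCoprime.pow ((Prime.coprime_iff_not_dvd hpr).mpr (by
        intro h4
        exact h2 (by exact_mod_cast h4)))
    have h3 := hc.dvd_of_dvd_mul_left h1
    exact (pow_dvd_pow _ (by omega)).trans h3

theorem big2 (hMER : S_MER) : ∃ c : ℝ, 0 < c ∧ ∃ T : ℕ, ∀ (t m : ℕ) (Y : Finset (Fin 8 → ℤ)), T ≤ t →
    (∀ l : ℕ, l.Prime → l ≤ t → ¬ l ^ 2 ∣ m) → (∀ v ∈ Y, InShell m v) → IsDesign t m Y →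
      (t : ℝ) ^ (c * t) ≤ (Y.card : ℝ) := by
  obtain ⟨c, hc, T, hT⟩ := hMER
  refine ⟨c / 4, by positivity, T + 100, fun t m Y ht hm hY hd => ?_⟩
  have ht0 : (0 : ℝ) < t := by exact_mod_cast (by omega : 0 < t)
  have hsum := hT t (by omega)
  obtain ⟨S, hS⟩ : ∃ S, S = (Finset.Icc 1 (t / 2)).filter (fun l => l.Prime ∧ 2 * t ≤ l ^ 2) :=
    ⟨_, rfl⟩
  rw [← hS] at hsum
  have hmem : ∀ l ∈ S, 1 ≤ l ∧ l ≤ t / 2 ∧ l.Prime ∧ 2 * t ≤ l ^ 2 := by
    intro l hl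
    rw [hS, Finset.mem_filter, Finset.mem_Icc] at hl
    exact ⟨hl.1.1, hl.1.2, hl.2.1, hl.2.2⟩
  have hcard : 0 < Y.card := Finset.card_pos.2 hd.1
  have hcub : Cubature t m Y (fun v => (((fun _ => 1 : (Fin 8 → ℤ) → ℤ) v : ℤ) : ℝ)) := by
    simpa using hd.2
  have hdvd : ∀ l ∈ S, ((l : ℤ) ^ (t / (2 * l))) ∣ (Y.card : ℤ) := by
    intro l hl
    obtain ⟨h1, h2, h3, h4⟩ := hmem l hl
    have h5 : 2 * (t / (2 * l)) * l ≤ t := by
      have := Nat.div_mul_le_self t (2 * l)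
      nlinarith
    have hl10 : 14 ≤ l := by
      by_contra hcon
      push Not at hcon
      have : l ^ 2 ≤ 13 ^ 2 := Nat.pow_le_pow_left (by omega) 2
      omega
    have h6 : 4 * (t / (2 * l)) ≤ l := by
      by_contra hcon
      push Not at hcon
      have h7 : l * l < 4 * (t / (2 * l)) * l := Nat.mul_lt_mul_of_pos_right hcon (by omega)
      nlinarith
    have h7 := dvs t m Y (fun _ => 1) hcub (fun v hv => (hY v hv).1) l (t / (2 * l)) h3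
      (by omega) (by omega) h5 (hm l h3 (by omega))
    simpa using h7
  have hcop : (S : Set ℕ).Pairwise (Function.onFun IsCoprime
      fun l : ℕ => ((l : ℤ) ^ (t / (2 * l)))) := by
    intro l hl l' hl' hne
    exact IsCoprime.pow (Nat.isCoprime_iff_coprime.2
      ((Nat.coprime_primes (hmem l hl).2.2.1 (hmem l' hl').2.2.1).2 hne))
  have hprod := Finset.prod_dvd_of_coprime hcop hdvd
  have hle := Int.le_of_dvd (by exact_mod_cast hcard) hprod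
  have hleR : ∏ l ∈ S, ((l : ℝ) ^ (t / (2 * l))) ≤ (Y.card : ℝ) := by exact_mod_cast hle
  have hl0 : ∀ l ∈ S, (0 : ℝ) < l := fun l hl => by exact_mod_cast (hmem l hl).1
  have hppos : 0 < ∏ l ∈ S, ((l : ℝ) ^ (t / (2 * l))) :=
    Finset.prod_pos fun l hl => pow_pos (hl0 l hl) _
  have hlog := Real.log_le_log hppos hleR
  rw [Real.log_prod fun l hl => (pow_pos (hl0 l hl) _).ne'] at hlog
  have hterm : ∀ l ∈ S, (t : ℝ) / 4 * (Real.log l / l) ≤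
      Real.log ((l : ℝ) ^ (t / (2 * l))) := by
    intro l hl
    obtain ⟨h1, h2, h3, h4⟩ := hmem l hl
    have hlp := hl0 l hl
    have hlog0 : 0 ≤ Real.log l := Real.log_nonneg (by exact_mod_cast h1)
    rw [Real.log_pow]
    have h5 : 1 ≤ t / (2 * l) := (Nat.one_le_div_iff (by omega)).2 (by omega)
    have h6 : t ≤ 4 * l * (t / (2 * l)) := by
      have h7 := Nat.lt_div_mul_add (a := t) (by omega : 0 < 2 * l)
      nlinarith
    have h7 : (t : ℝ) ≤ 4 * l * ((t / (2 * l) : ℕ) : ℝ) := by exact_mod_cast h6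
    have h8 : (t : ℝ) / (4 * l) ≤ ((t / (2 * l) : ℕ) : ℝ) := by
      rw [div_le_iff₀ (by positivity)]
      linarith
    calc (t : ℝ) / 4 * (Real.log l / l) = t / (4 * l) * Real.log l := by field_simp
      _ ≤ _ := mul_le_mul_of_nonneg_right h8 hlog0
  have h9 := (Finset.sum_le_sum hterm).trans hlog
  rw [← Finset.mul_sum] at h9
  have h10 := mul_le_mul_of_nonneg_left hsum (by positivity : (0 : ℝ) ≤ t / 4)
  have hY0 : (0 : ℝ) < Y.card := by exact_mod_cast hcard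
  rw [Real.rpow_def_of_pos ht0, ← Real.le_log_iff_exp_le hY0]
  linarith

end Pool.Agent.Helper17K9.ED
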